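import Mathlib

set_option autoImplicit false

/-!
Middle binomial coefficients, signed counts of subsets and the last averaging step.
-/

namespace Pool.Agent.MDR

open Finset

theorem centralBinom_sq_le (m : ℕ) : m.centralBinom ^ 2 * (2 * m + 1) ≤ 16 ^ m := by
  induction m with
  | zero => simp
  | succ m ih =>
    have h := Nat.succ_mul_centralBinom_succ m
    have h2 : (m + 1) ^ 2 * ((m + 1).centralBinom ^ 2 * (2 * (m + 1) + 1)) ≤
        (m + 1) ^ 2 * 16 ^ (m + 1) := by
      calc (m + 1) ^ 2 * ((m + 1).centralBinom ^ 2 * (2 * (m + 1) + 1))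
          = ((m + 1) * (m + 1).centralBinom) ^ 2 * (2 * m + 3) := by ring
        _ = (2 * (2 * m + 1) * m.centralBinom) ^ 2 * (2 * m + 3) := by rw [h]
        _ = (m.centralBinom ^ 2 * (2 * m + 1)) * (4 * (2 * m + 1) * (2 * m + 3)) := by ring
        _ ≤ 16 ^ m * (4 * (2 * m + 1) * (2 * m + 3)) := Nat.mul_le_mul_right _ ih
        _ ≤ 16 ^ m * (16 * (m + 1) ^ 2) := by
          apply Nat.mul_le_mul_left
          nlinarith
        _ = (m + 1) ^ 2 * 16 ^ (m + 1) := by ring
    exact Nat.le_of_mul_le_mul_left h2 (by positivity)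

theorem choose_half_sq (j : ℕ) : (j.choose (j / 2)) ^ 2 * (j + 1) ≤ 4 ^ j := by
  rcases Nat.even_or_odd' j with ⟨m, rfl | rfl⟩
  · have h := centralBinom_sq_le m
    rw [Nat.centralBinom_eq_two_mul_choose] at h
    have e : 2 * m / 2 = m := by omega
    rw [e, pow_mul]
    exact h
  · have h := centralBinom_sq_le (m + 1)
    rw [Nat.centralBinom_eq_two_mul_choose] at h
    have e : (2 * m + 1) / 2 = m := by omega
    have e2 : (2 * (m + 1)).choose (m + 1) = 2 * (2 * m + 1).choose m := by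
      have h1 : 2 * (m + 1) = (2 * m + 1) + 1 := by ring
      rw [h1, Nat.choose_succ_succ]
      have h2 : (2 * m + 1).choose (m + 1) = (2 * m + 1).choose m := by
        apply Nat.choose_symm_of_eq_add
        ring
      rw [Nat.succ_eq_add_one, h2]
      ring
    rw [e2] at h
    rw [e]
    have h3 : 4 * ((2 * m + 1).choose m ^ 2 * (2 * m + 1 + 1)) ≤ 4 * 4 ^ (2 * m + 1) := by
      calc 4 * ((2 * m + 1).choose m ^ 2 * (2 * m + 1 + 1))
          ≤ 4 * ((2 * m + 1).choose m ^ 2 * (2 * (m + 1) + 1)) := by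
            apply Nat.mul_le_mul_left
            apply Nat.mul_le_mul_left
            omega
        _ = (2 * (2 * m + 1).choose m) ^ 2 * (2 * (m + 1) + 1) := by ring
        _ ≤ 16 ^ (m + 1) := h
        _ = 4 * 4 ^ (2 * m + 1) := by
          rw [show (16 : ℕ) = 4 ^ 2 by norm_num, ← pow_mul]
          ring
    omega

/-- The middle binomial coefficient, with constant 1. -/
theorem choose_half' (j : ℕ) :
    ((j.choose (j / 2) : ℕ) : ℝ) ≤ 2 ^ j / Real.sqrt (j + 1) := by
  have h0 : (0 : ℝ) < (j : ℝ) + 1 := by positivity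
  rw [le_div_iff₀ (Real.sqrt_pos.mpr h0)]
  have h : (((j.choose (j / 2)) ^ 2 * (j + 1) : ℕ) : ℝ) ≤ ((4 ^ j : ℕ) : ℝ) := by
    exact_mod_cast choose_half_sq j
  push_cast at h
  apply le_of_sq_le_sq _ (by positivity)
  rw [mul_pow, Real.sq_sqrt h0.le, ← pow_mul, mul_comm j 2, pow_mul]
  norm_num
  exact h

theorem choose_half (j : ℕ) :
    ((j.choose (j / 2) : ℕ) : ℝ) ≤ 2 * 2 ^ j / Real.sqrt (j + 1) := by
  refine (choose_half' j).trans ?_
  have h0 : (0 : ℝ) < (j : ℝ) + 1 := by positivity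
  have h1 := Real.sqrt_pos.mpr h0
  apply div_le_div_of_nonneg_right _ h1.le
  have : (0 : ℝ) < 2 ^ j := by positivity
  linarith

/-- Signed counts: the number of `S ⊆ A` with a given value of `#(S \ D) - #(S ∩ D)`. -/
theorem count_signs (A D : Finset ℕ) (hD : D ⊆ A) (c k : ℤ) :
    ((A.powerset.filter
      (fun S => c + ((S \ D).card : ℤ) - ((S ∩ D).card : ℤ) = k)).card : ℕ) ≤
      A.card.choose (A.card / 2) := by
  classical
  have h1 : (A.powerset.filter
      (fun S => c + ((S \ D).card : ℤ) - ((S ∩ D).card : ℤ) = k)).card ≤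
      (A.powersetCard ((D.card : ℤ) + k - c).toNat).card := by
    apply Finset.card_le_card_of_injOn (fun S => symmDiff S D)
    · intro S hS
      rw [Finset.mem_coe, Finset.mem_filter, Finset.mem_powerset] at hS
      obtain ⟨hSA, hS⟩ := hS
      rw [Finset.mem_coe, Finset.mem_powersetCard]
      refine ⟨?_, ?_⟩
      · intro x hx
        rw [Finset.mem_symmDiff] at hx
        rcases hx with hx | hx
        · exact hSA hx.1
        · exact hD hx.1
      · have h2 : (symmDiff S D).card = (S \ D).card + (D \ S).card := by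
          rw [symmDiff_def, Finset.sup_eq_union, Finset.card_union_of_disjoint]
          exact disjoint_sdiff_sdiff
        have h3 : (D \ S).card + (S ∩ D).card = D.card := by
          rw [Finset.inter_comm]
          exact Finset.card_sdiff_add_card_inter D S
        have h4 : (((symmDiff S D).card : ℕ) : ℤ) = (D.card : ℤ) + k - c := by
          rw [h2]
          push_cast
          have : ((D \ S).card : ℤ) + ((S ∩ D).card : ℤ) = (D.card : ℤ) := by exact_mod_cast h3
          linarith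
        rw [← h4]
        simp
    · intro S _ T _ h
      exact symmDiff_left_injective D h
  refine h1.trans ?_
  rw [Finset.card_powersetCard]
  exact Nat.choose_le_middle _ _

/-- The last averaging step. -/
theorem assemble {ι : Type*} (Ω : Finset ι) (Jc : ι → ℕ) (N n : ℕ) (hn : 1 ≤ n) (C0 : ℝ)
    (h1 : (N : ℝ) ≤ ∑ p ∈ Ω, (((Jc p).choose (Jc p / 2) : ℕ) : ℝ) / 2 ^ (Jc p))
    (h2 : ((Ω.filter (fun p => 100 * Jc p ≤ n / 2 + 1)).card : ℝ) ≤
      C0 / Real.sqrt n * Ω.card) :
    (N : ℝ) ≤ (C0 + 40) / Real.sqrt n * Ω.card := by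
  classical
  have hn0 : (0 : ℝ) < n := by exact_mod_cast hn
  have hs : 0 < Real.sqrt n := Real.sqrt_pos.mpr hn0
  have key : ∀ p ∈ Ω, (((Jc p).choose (Jc p / 2) : ℕ) : ℝ) / 2 ^ (Jc p) ≤
      (if 100 * Jc p ≤ n / 2 + 1 then (1 : ℝ) else 0) + 40 / Real.sqrt n := by
    intro p _
    have hp2 : (0 : ℝ) < 2 ^ (Jc p) := by positivity
    have hle : (((Jc p).choose (Jc p / 2) : ℕ) : ℝ) / 2 ^ (Jc p) ≤ 1 := by
      rw [div_le_one hp2]
      have : (Jc p).choose (Jc p / 2) ≤ 2 ^ (Jc p) := Nat.choose_le_two_pow _ _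
      exact_mod_cast this
    split_ifs with h
    · have : 0 < 40 / Real.sqrt n := by positivity
      linarith
    · rw [zero_add]
      push Not at h
      have h3 : (n : ℝ) ≤ 200 * ((Jc p : ℝ) + 1) := by
        have : n ≤ 200 * (Jc p + 1) := by omega
        exact_mod_cast this
      have h0 : (0 : ℝ) < (Jc p : ℝ) + 1 := by positivity
      have h4 := choose_half' (Jc p)
      have h5 : (((Jc p).choose (Jc p / 2) : ℕ) : ℝ) / 2 ^ (Jc p) ≤
          1 / Real.sqrt ((Jc p : ℝ) + 1) := by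
        rw [div_le_iff₀ hp2]
        calc (((Jc p).choose (Jc p / 2) : ℕ) : ℝ) ≤ 2 ^ (Jc p) / Real.sqrt ((Jc p : ℝ) + 1) := h4
          _ = 1 / Real.sqrt ((Jc p : ℝ) + 1) * 2 ^ (Jc p) := by ring
      refine h5.trans ?_
      have hs2 : 0 < Real.sqrt ((Jc p : ℝ) + 1) := Real.sqrt_pos.mpr h0
      rw [div_le_div_iff₀ hs2 hs, one_mul]
      calc Real.sqrt n ≤ Real.sqrt (40 ^ 2 * ((Jc p : ℝ) + 1)) := by
            apply Real.sqrt_le_sqrt
            nlinarith
        _ = 40 * Real.sqrt ((Jc p : ℝ) + 1) := by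
            rw [Real.sqrt_mul (by positivity), Real.sqrt_sq (by positivity)]
  have h6 : ∑ p ∈ Ω, (((Jc p).choose (Jc p / 2) : ℕ) : ℝ) / 2 ^ (Jc p) ≤
      ((Ω.filter (fun p => 100 * Jc p ≤ n / 2 + 1)).card : ℝ) + 40 / Real.sqrt n * Ω.card := by
    refine (Finset.sum_le_sum key).trans (le_of_eq ?_)
    rw [Finset.sum_add_distrib, Finset.sum_boole, Finset.sum_const, nsmul_eq_mul]
    ring
  calc (N : ℝ) ≤ _ := h1
    _ ≤ _ := h6
    _ ≤ C0 / Real.sqrt n * Ω.card + 40 / Real.sqrt n * Ω.card := by gcongr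
    _ = (C0 + 40) / Real.sqrt n * Ω.card := by ring

end Pool.Agent.MDR
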